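import Mathlib
import Pool.Agent.H.MP_7d36bd_gt.A

set_option autoImplicit false

namespace Pool.Agent.Results.MP_414e75_gt.Hausdorff

open Pool.Agent.H.MP_7d36bd_gt

theorem result : ∃ (X : Type) (_ : TopologicalSpace X), T2Space X ∧ HereditarilyLindelofSpace X ∧
    (∃ f : X → ℕ → Bool, Continuous f ∧ Function.Injective f) ∧
    ∃ N : X → Set X, (∀ x, IsOpen (N x) ∧ x ∈ N x) ∧
      ∀ D : Set X, DiscreteTopology D → (⋃ d ∈ D, N d) ≠ Set.univ :=
  ⟨T, inferInstance, inferInstance, hl, ⟨fun t n => e t ((Denumerable.eqv (List ℕ)).symm n),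
    continuous_pi fun _ => (continuous_apply _).comp ce, fun s t h => einj s t (funext fun l => by
      simpa using congrFun h (Denumerable.eqv (List ℕ) l))⟩, main⟩

end Pool.Agent.Results.MP_414e75_gt.Hausdorff
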